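import Pool.Agent.V11142.RodlE

/-!
Polynomial bounds for the partite hypergraph Rodl-type theorem: for every tripartite 3-graph `T`
with a singleton part there is a constant `C` such that `ε ^ C` is admissible for all
`ε ∈ (0,1)`.
-/

namespace Pool.Agent.Results.MP_64e9d4_co.PolynomialRodl

open Finset Classical

/-- A 3-partite 3-graph whose three parts `V 0, V 1, V 2` are copies of `Fin n`; a potential edge
picks one vertex `x i` in each part `V i`. -/
abbrev TriGraph (n : ℕ) := (Fin 3 → Fin n) → Prop

/-- The relevant triples of a tripartite 3-graph with parts `W j = Fin (p j)`: a set of choices of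
one vertex `w j` in each part `W j`. -/
abbrev Pattern (p : Fin 3 → ℕ) := (∀ j, Fin (p j)) → Prop

/-- `H` contains a tripartitely induced copy of `T`: there are a bijection `σ` of the three
indices and injections `φ j : W j → V (σ j)` such that `w` is an edge of `T` if and only if the
triple of the vertices `φ j (w j) ∈ V (σ j)` is an edge of `H`. -/
def HasCopy {p : Fin 3 → ℕ} (T : Pattern p) {n : ℕ} (H : TriGraph n) : Prop :=
  ∃ (σ : Equiv.Perm (Fin 3)) (φ : ∀ j, Fin (p j) → Fin n), (∀ j, Function.Injective (φ j)) ∧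
    ∀ w : (∀ j, Fin (p j)), T w ↔ H (fun i => φ (σ.symm i) (w (σ.symm i)))

/-- The edge density `e(X 0, X 1, X 2) / (|X 0| |X 1| |X 2|)`. -/
noncomputable def density {n : ℕ} (H : TriGraph n) (X : Fin 3 → Finset (Fin n)) : ℝ :=
  ((univ.filter (fun x : Fin 3 → Fin n => (∀ i, x i ∈ X i) ∧ H x)).card : ℝ)
    / ∏ i, ((X i).card : ℝ)

/-- `δ` is admissible for `T` and `ε`. -/
def Admissible {p : Fin 3 → ℕ} (T : Pattern p) (ε δ : ℝ) : Prop :=
  ∀ n : ℕ, 1 ≤ n → ∀ H : TriGraph n, ¬ HasCopy T H →
    ∃ X : Fin 3 → Finset (Fin n), (∀ i, (X i).Nonempty ∧ δ * n ≤ ((X i).card : ℝ)) ∧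
      density H X ∈ Set.Icc 0 ε ∪ Set.Icc (1 - ε) 1

open Pool.Agent.V11142.Rodl

theorem noSh_of_free {p : Fin 3 → ℕ} (hp : ∃ j, p j = 1) (T : Pattern p) {n : ℕ}
    (H : TriGraph n) (hH : ¬ HasCopy T H) (π : Equiv.Perm (Fin 3)) (v : Fin n)
    (D : ℕ) (hD : D = ∑ j, p j) :
    NoSh D (fun x y : Fin n => H (fun i => ![v, x, y] (π.symm i))) := by
  rintro ⟨x, hx⟩
  apply hH
  obtain ⟨j0, hj0⟩ := hp
  set τ : Equiv.Perm (Fin 3) := Equiv.swap 0 j0 with hτ
  have hτ0 : τ 0 = j0 := Equiv.swap_apply_left _ _
  have hsum : D = p (τ 0) + p (τ 1) + p (τ 2) := by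
    rw [hD, ← Equiv.sum_comp τ p, Fin.sum_univ_three]
  set Tv : ℕ → ℕ → Prop := fun i l => ∃ w, T w ∧ (w (τ 1)).val = i ∧ (w (τ 2)).val = l with hTv
  set s : ℕ → Fin D → Bool := fun l i =>
    if i.val < p (τ 1) then decide (Tv i.val l) else decide (i.val = p (τ 1) + l) with hs
  choose y hy0 using hx
  have hy : ∀ (s : Fin D → Bool) (i : Fin D),
      H (fun k => ![v, x i, y s] (π.symm k)) ↔ s i = true := hy0
  set x' : ℕ → Fin n := fun k => if h : k < D then x ⟨k, h⟩ else v with hx'
  set y' : ℕ → Fin n := fun l => y (s l) with hy'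
  have hxinj : Function.Injective x := by
    intro i i' hii
    by_contra hne
    have h1 := hy (fun k => decide (k = i)) i
    have h2 := hy (fun k => decide (k = i)) i'
    rw [hii] at h1
    have h3 : (decide (i = i) : Bool) = true := by simp
    have h4 : ¬ (decide (i' = i) = true) := by
      simp only [decide_eq_true_eq]
      exact fun h => hne h.symm
    exact h4 (h2.1 (h1.2 h3))
  refine ⟨τ.symm.trans π, fun j k => if τ.symm j = 0 then v else
    if τ.symm j = 1 then x' k.val else y' k.val, ?_, ?_⟩
  · intro j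
    obtain ⟨k, rfl⟩ := τ.surjective j
    have hk : k = 0 ∨ k = 1 ∨ k = 2 := by fin_cases k <;> simp
    rcases hk with rfl | rfl | rfl
    · intro a b _
      have : p (τ 0) = 1 := by rw [hτ0]; exact hj0
      apply Fin.ext
      have ha := a.2
      have hb := b.2
      omega
    · intro a b hab
      simp only [Equiv.symm_apply_apply] at hab
      have ha : a.val < D := by have := a.2; omega
      have hb : b.val < D := by have := b.2; omega
      have h01 : ((1 : Fin 3) = 0) = False := by simp
      simp only [h01, if_false, if_true, hx', ha, hb, dif_pos] at hab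
      have := hxinj hab
      apply Fin.ext
      simpa using this
    · intro a b hab
      simp only [Equiv.symm_apply_apply] at hab
      have h01 : ((2 : Fin 3) = 0) = False := by simp
      have h21 : ((2 : Fin 3) = 1) = False := by simp
      simp only [h01, h21, if_false, hy'] at hab
      have ha : p (τ 1) + a.val < D := by have := a.2; omega
      have h1 := hy (s a.val) ⟨p (τ 1) + a.val, ha⟩
      have h2 := hy (s b.val) ⟨p (τ 1) + a.val, ha⟩
      rw [hab] at h1
      have h3 : s a.val ⟨p (τ 1) + a.val, ha⟩ = true := by simp [hs]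
      have h4 := h2.1 (h1.2 h3)
      simp [hs] at h4
      exact Fin.ext h4
  · intro w
    have hfun : (fun i => (fun j (k : Fin (p j)) => if τ.symm j = 0 then v else
        if τ.symm j = 1 then x' k.val else y' k.val) ((τ.symm.trans π).symm i)
          (w ((τ.symm.trans π).symm i)))
        = fun i => ![v, x' (w (τ 1)).val, y' (w (τ 2)).val] (π.symm i) := by
      funext i
      simp only [Equiv.symm_trans_apply, Equiv.symm_symm, Equiv.symm_apply_apply]
      have hk : π.symm i = 0 ∨ π.symm i = 1 ∨ π.symm i = 2 := by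
        generalize π.symm i = k
        fin_cases k <;> simp
      rcases hk with h | h | h
      · rw [h]; simp
      · rw [h]; simp
      · rw [h]; simp
    rw [hfun]
    have hw1 : (w (τ 1)).val < D := by have := (w (τ 1)).2; omega
    have h1 := hy (s (w (τ 2)).val) ⟨(w (τ 1)).val, hw1⟩
    have hx1 : x' (w (τ 1)).val = x ⟨(w (τ 1)).val, hw1⟩ := by simp only [hx', hw1, dif_pos]
    rw [hx1]
    rw [h1]
    have h2 : s (w (τ 2)).val ⟨(w (τ 1)).val, hw1⟩ = decide (Tv (w (τ 1)).val (w (τ 2)).val) := by
      simp only [hs]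
      rw [if_pos (w (τ 1)).2]
    rw [h2, decide_eq_true_eq]
    constructor
    · intro hT
      exact ⟨w, hT, rfl, rfl⟩
    · rintro ⟨w', hT, ha, hb⟩
      have : w' = w := by
        funext j
        obtain ⟨k, rfl⟩ := τ.surjective j
        have hk : k = 0 ∨ k = 1 ∨ k = 2 := by fin_cases k <;> simp
        rcases hk with rfl | rfl | rfl
        · have h5 : p (τ 0) = 1 := by rw [hτ0]; exact hj0
          apply Fin.ext
          have ha := (w' (τ 0)).2
          have hb := (w (τ 0)).2
          omega
        · exact Fin.ext ha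
        · exact Fin.ext hb
      rw [← this]
      exact hT

theorem count_eq {n : ℕ} (H : TriGraph n) (X1 X2 X3 : Finset (Fin n)) :
    ((univ.filter (fun x : Fin 3 → Fin n => (∀ i, x i ∈ (![X1, X2, X3] : Fin 3 → Finset (Fin n)) i)
      ∧ H x)).card : ℝ)
      = ∑ a ∈ X1, ∑ b ∈ X2, pn (fun b c => H ![a, b, c]) b X3 := by
  have h1 : univ.filter (fun x : Fin 3 → Fin n =>
      (∀ i, x i ∈ (![X1, X2, X3] : Fin 3 → Finset (Fin n)) i) ∧ H x)
      = ((X1 ×ˢ (X2 ×ˢ X3)).filter (fun t => H ![t.1, t.2.1, t.2.2])).image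
          (fun t => ![t.1, t.2.1, t.2.2]) := by
    ext x
    simp only [mem_filter, mem_univ, true_and, mem_image, mem_product, Prod.exists]
    constructor
    · rintro ⟨hx, hH⟩
      have hx3 : ![x 0, x 1, x 2] = x := by
        funext i; fin_cases i <;> rfl
      refine ⟨x 0, x 1, x 2, ⟨⟨?_, ?_, ?_⟩, ?_⟩, hx3⟩
      · simpa using hx 0
      · simpa using hx 1
      · simpa using hx 2
      · rw [hx3]; exact hH
    · rintro ⟨a, b, c, ⟨⟨ha, hb, hc⟩, hH⟩, rfl⟩
      refine ⟨?_, hH⟩
      intro i
      fin_cases i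
      · simpa using ha
      · simpa using hb
      · simpa using hc
  rw [h1, card_image_of_injective]
  · rw [card_filter, sum_product]
    push_cast
    apply sum_congr rfl
    intro a _
    rw [sum_product]
    apply sum_congr rfl
    intro b _
    unfold pn
    rw [card_filter]
    push_cast
    rfl
  · rintro ⟨a, b, c⟩ ⟨a', b', c'⟩ h
    have h0 := congrFun h 0
    have h1 := congrFun h 1
    have h2 := congrFun h 2
    simp at h0 h1 h2
    rw [h0, h1, h2]

theorem pn_add_qn {α β : Type*} (G : α → β → Prop) (b : α) (X : Finset β) :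
    pn G b X + qn G b X = (X.card : ℝ) := by
  unfold pn qn
  have := card_filter_add_card_filter_not (s := X) (fun c => G b c)
  exact_mod_cast this

/-- Main theorem: for every tripartite 3-graph `T` with a singleton part there is a constant
`C = C(T)` such that for every `ε ∈ (0,1)`, `ε ^ C` is admissible. -/
theorem result : ∀ (p : Fin 3 → ℕ), (∃ j, p j = 1) → ∀ T : Pattern p,
    ∃ C : ℕ, 0 < C ∧ ∀ ε : ℝ, 0 < ε → ε < 1 → Admissible T ε (ε ^ C) := by
  intro p hp T
  obtain ⟨C, hC, hter⟩ := ternary (∑ j, p j)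
  refine ⟨C, hC, fun ε hε hε1 n hn H hH => ?_⟩
  have hn0 : (0 : ℝ) < n := by exact_mod_cast hn
  haveI : Nonempty (Fin n) := ⟨⟨0, hn⟩⟩
  rcases lt_or_ge ε (1 / 2) with hlt | hge
  · obtain ⟨X1, X2, X3, c1, c2, c3, hX⟩ := hter ε hε hlt (V1 := Fin n) (V2 := Fin n) (V3 := Fin n)
      (fun a b c => H ![a, b, c])
      (by
        intro a
        have := noSh_of_free hp T H hH (Equiv.refl _) a _ rfl
        exact this)
      (by
        intro c
        have := noSh_of_free hp T H hH (Equiv.swap 0 2) c _ rfl
        convert this using 4 with b a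
        funext i
        fin_cases i <;> rfl)
      (by
        intro a
        have := noSh_of_free hp T H hH (Equiv.swap 1 2) a _ rfl
        convert this using 4 with c b
        funext i
        fin_cases i <;> rfl)
      (by
        intro b
        have := noSh_of_free hp T H hH (finRotate 3) b _ rfl
        convert this using 4 with c a
        funext i
        fin_cases i <;> rfl)
    simp only [Fintype.card_fin] at c1 c2 c3
    have hεC : 0 < ε ^ C := by positivity
    have p1 : (0 : ℝ) < X1.card := lt_of_lt_of_le (by positivity) c1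
    have p2 : (0 : ℝ) < X2.card := lt_of_lt_of_le (by positivity) c2
    have p3 : (0 : ℝ) < X3.card := lt_of_lt_of_le (by positivity) c3
    refine ⟨![X1, X2, X3], ?_, ?_⟩
    · intro i
      have hk : i = 0 ∨ i = 1 ∨ i = 2 := by fin_cases i <;> simp
      rcases hk with rfl | rfl | rfl
      · exact ⟨card_pos.1 (by exact_mod_cast p1), c1⟩
      · exact ⟨card_pos.1 (by exact_mod_cast p2), c2⟩
      · exact ⟨card_pos.1 (by exact_mod_cast p3), c3⟩
    · have hprod : ∏ i, (((![X1, X2, X3] : Fin 3 → Finset (Fin n)) i).card : ℝ)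
          = (X1.card : ℝ) * X2.card * X3.card := by
        rw [Fin.prod_univ_three]; rfl
      have hden : density H ![X1, X2, X3]
          = (∑ a ∈ X1, ∑ b ∈ X2, pn (fun b c => H ![a, b, c]) b X3)
            / ((X1.card : ℝ) * X2.card * X3.card) := by
        unfold density
        rw [count_eq, hprod]
      have hpos : (0 : ℝ) < (X1.card : ℝ) * X2.card * X3.card := by positivity
      have htot : ∑ a ∈ X1, ∑ b ∈ X2, pn (fun b c => H ![a, b, c]) b X3
          + ∑ a ∈ X1, ∑ b ∈ X2, qn (fun b c => H ![a, b, c]) b X3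
          = (X1.card : ℝ) * X2.card * X3.card := by
        rw [← sum_add_distrib]
        simp_rw [← sum_add_distrib, pn_add_qn, sum_const, nsmul_eq_mul]
        ring
      have hpn0 : 0 ≤ ∑ a ∈ X1, ∑ b ∈ X2, pn (fun b c => H ![a, b, c]) b X3 :=
        sum_nonneg (fun a _ => sum_nonneg (fun b _ => pn_nonneg _ _ _))
      have hqn0 : 0 ≤ ∑ a ∈ X1, ∑ b ∈ X2, qn (fun b c => H ![a, b, c]) b X3 :=
        sum_nonneg (fun a _ => sum_nonneg (fun b _ => qn_nonneg _ _ _))
      rw [hden]
      rcases hX with hX | hX
      · left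
        refine ⟨div_nonneg hpn0 hpos.le, ?_⟩
        rw [div_le_iff₀ hpos]
        calc ∑ a ∈ X1, ∑ b ∈ X2, pn (fun b c => H ![a, b, c]) b X3
            ≤ ∑ a ∈ X1, ε * X2.card * X3.card := sum_le_sum hX
          _ = ε * ((X1.card : ℝ) * X2.card * X3.card) := by
              rw [sum_const, nsmul_eq_mul]; ring
      · right
        have hq : ∑ a ∈ X1, ∑ b ∈ X2, qn (fun b c => H ![a, b, c]) b X3
            ≤ ε * ((X1.card : ℝ) * X2.card * X3.card) := by
          calc ∑ a ∈ X1, ∑ b ∈ X2, qn (fun b c => H ![a, b, c]) b X3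
              ≤ ∑ a ∈ X1, ε * X2.card * X3.card := sum_le_sum hX
            _ = ε * ((X1.card : ℝ) * X2.card * X3.card) := by
                rw [sum_const, nsmul_eq_mul]; ring
        constructor
        · rw [le_div_iff₀ hpos]; linarith
        · rw [div_le_one hpos]; linarith
  · refine ⟨fun _ => univ, ?_, ?_⟩
    · intro i
      refine ⟨univ_nonempty, ?_⟩
      rw [card_univ, Fintype.card_fin]
      have : ε ^ C ≤ 1 := pow_le_one₀ hε.le hε1.le
      nlinarith
    · have hprod : ∏ i : Fin 3, (((fun _ => univ : Fin 3 → Finset (Fin n)) i).card : ℝ)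
          = (n : ℝ) * n * n := by
        rw [Fin.prod_univ_three]; simp
      have hd0 : 0 ≤ density H (fun _ => univ) := by
        unfold density; positivity
      have hd1 : density H (fun _ => univ) ≤ 1 := by
        unfold density
        rw [hprod, div_le_one (by positivity)]
        have h1 := card_le_univ (univ.filter (fun x : Fin 3 → Fin n =>
          (∀ i, x i ∈ (fun _ => univ : Fin 3 → Finset (Fin n)) i) ∧ H x))
        rw [Fintype.card_fun, Fintype.card_fin, Fintype.card_fin] at h1
        calc _ ≤ ((n ^ 3 : ℕ) : ℝ) := by exact_mod_cast h1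
          _ = (n : ℝ) * n * n := by push_cast; ring
      rcases le_total (density H (fun _ => univ)) ε with h | h
      · exact Or.inl ⟨hd0, h⟩
      · exact Or.inr ⟨by linarith, hd1⟩

end Pool.Agent.Results.MP_64e9d4_co.PolynomialRodl
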